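import Pool.Agent.H.MP_a3c043_al.A

set_option autoImplicit false

namespace Pool.Agent.Results.MP_a3c043_al.Schlaefli

open Pool.Agent.H.MP_a3c043_al

theorem result : ∃ (n : ℕ) (G : Subgroup (Equiv.Perm (Fin n))), 2 ≤ n ∧
    (∀ x y : Fin n, ∃ g ∈ G, g x = y) ∧
    (∀ A B : Finset (Fin n), 1 < A.card → A.card < n → 1 < B.card → B.card < n → B.card ∣ n →
      ∀ k : ℕ, A.card * B.card = k * n → ∃ g ∈ G, (A ∩ B.image g).card ≠ k) ∧
    (¬ ∀ A : Finset (Fin n), A.Nonempty → A ≠ Finset.univ →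
      ∀ t : Fin n → Fin n, ¬ Function.Injective t →
        ∃ g ∈ G, A.card < (Finset.univ.filter fun x => t x ∈ A.image g).card) ∧
    ¬ ∀ W : Submodule ℚ (Fin n → ℚ), (∀ f ∈ W, ∑ x, f x = 0) → (∀ g ∈ G, ∀ f ∈ W, f ∘ g ∈ W) →
      W = ⊥ ∨ ∀ f : Fin n → ℚ, ∑ x, f x = 0 → f ∈ W := by
  refine ⟨27, G, by norm_num, fun x y => ?_, fun A B a1 a2 b1 b2 _ k _ => ?_, fun h => ?_,
    fun h => ?_⟩
  · obtain ⟨g, hg, e⟩ := act_mem (wd x x)
    obtain ⟨g', hg', e'⟩ := act_mem (wd y y)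
    refine ⟨g'⁻¹ * g, mul_mem (inv_mem hg') hg, ?_⟩
    rw [Equiv.Perm.mul_apply, e, (wd_ok x x).1, ← (wd_ok y y).1, ← e']
    simp
  · by_contra hn
    push Not at hn
    rcases sep A B k hn with (h | h) | h | h <;> simp [h] at a1 a2 b1 b2
  · obtain ⟨g, hg, h1⟩ := h {0, 2, 3} (by decide) (by decide) ![0, 1, 2, 6, 7, 2, 6, 7, 8, 9, 11, 11,
      12, 13, 14, 15, 17, 17, 18, 19, 20, 21, 23, 23, 24, 25, 26] (by decide +kernel)
    have : ∀ a b, adj a b = true → ∀ c, adj a c = true → adj b c = true →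
        (Finset.univ.filter fun x : Fin 27 => (![0, 1, 2, 6, 7, 2, 6, 7, 8, 9, 11, 11, 12, 13, 14,
        15, 17, 17, 18, 19, 20, 21, 23, 23, 24, 25, 26] : Fin 27 → Fin 27) x ∈
          ({a, b, c} : Finset (Fin 27))).card = 3 := by decide +kernel
    simp only [Finset.image_insert, Finset.image_singleton] at h1
    rw [this _ _ ((hg 0 2).trans (by decide)) _ ((hg 0 3).trans (by decide))
      ((hg 2 3).trans (by decide))] at h1
    exact absurd h1 (by decide)
  · let W : Submodule ℚ (Fin 27 → ℚ) :=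
      { carrier := {f | ∑ x, f x = 0 ∧
          ∀ a b c, adj a b = true → adj a c = true → adj b c = true → f a + f b + f c = 0}
        zero_mem' := ⟨by simp, by simp⟩
        add_mem' := fun {f g} hf hg => ⟨by simp [Finset.sum_add_distrib, hf.1, hg.1],
          fun a b c h1 h2 h3 => by
            simp only [Pi.add_apply]
            linarith [hf.2 a b c h1 h2 h3, hg.2 a b c h1 h2 h3]⟩
        smul_mem' := fun r f hf => ⟨by simp [← Finset.mul_sum, hf.1], fun a b c h1 h2 h3 => by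
          simp only [Pi.smul_apply, smul_eq_mul]
          rw [← mul_add, ← mul_add, hf.2 a b c h1 h2 h3, mul_zero]⟩ }
    rcases h W (fun f hf => hf.1) (fun g hg f hf => ⟨(Equiv.sum_comp g f).trans hf.1,
      fun a b c h1 h2 h3 => hf.2 _ _ _ ((hg _ _).trans h1) ((hg _ _).trans h2)
        ((hg _ _).trans h3)⟩) with h | h
    · let v : Fin 27 → ℤ := ![0, 0, 1, -1, -1, -1, 1, 1, 0, 0, -1, 1, 0, 0, 0, 0, -1, 1, 0, 0, 0, 0,
        -1, 1, 0, 0, 0]
      have h1 : ∑ x, v x = 0 := by decide +kernel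
      have h2 : ∀ a b, adj a b = true → ∀ c, adj a c = true → adj b c = true →
          v a + v b + v c = 0 := by decide +kernel
      have h3 : (fun x => (v x : ℚ)) ∈ W := ⟨by beta_reduce; exact_mod_cast h1,
        fun a b c e1 e2 e3 => by beta_reduce; exact_mod_cast h2 a b e1 c e2 e3⟩
      rw [h] at h3
      have : v 2 = 0 := Int.cast_eq_zero.1 (congrFun ((Submodule.mem_bot ℚ).1 h3) 2)
      exact absurd this (by decide)
    · have := (h (Pi.single 0 1 - Pi.single 1 1) (by simp [Finset.sum_sub_distrib])).2 0 2 3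
        (by decide) (by decide) (by decide)
      simp at this

end Pool.Agent.Results.MP_a3c043_al.Schlaefli
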